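import Pool.Agent.Helper98.EY.StmtsB
import Pool.Agent.Helper52.EX.ENV

/-!
# MP_157eb8_pr: all environment conditions with high probability (module ENV2)
-/

set_option autoImplicit false

namespace Pool.Agent.Helper98.EX

open Finset MeasureTheory ProbabilityTheory Filter
open scoped Topology

theorem env2_RR_nonneg {r l : ℕ → ℝ} (hr : ∀ x, 0 < r x) (hl : ∀ x, 0 ≤ l x) (z x : ℕ) :
    0 ≤ RR r l z x := by
  unfold RR
  exact Finset.prod_nonneg fun b _ => div_nonneg (hl b) (hr b).le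

theorem env2_RR_mul (r l : ℕ → ℝ) {z y x : ℕ} (h1 : z ≤ y) (h2 : y ≤ x) :
    RR r l z x = RR r l z y * RR r l y x := by
  unfold RR
  exact (Finset.prod_Ioc_consecutive _ h1 h2).symm

/-- the value of a window (only admissible windows count) -/
noncomputable def env2_f (r l : ℕ → ℝ) (N : ℕ) (p : ℕ × ℕ) : ℝ :=
  max (if p.2 + 1 < N then vp r l p.1 p.2 else 0) (if 1 ≤ p.1 then vh r l p.1 p.2 else 0)

theorem env2_split {r l : ℕ → ℝ} (hr : ∀ x, 0 < r x) (hr1 : ∀ x, r x ≤ 1) (hl : ∀ x, 0 ≤ l x)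
    {z y B : ℕ} {κ : ℝ} (h1 : z ≤ y) (h2 : y ≤ B) (hp : vp r l y B ≤ κ) (hh : vh r l z y ≤ κ) :
    vp r l z B ≤ κ ^ 2 ∧ vh r l z B ≤ κ ^ 2 := by
  have hp0 : 0 ≤ vp r l y B := div_nonneg (env2_RR_nonneg hr hl _ _) (hr _).le
  have hh0 : 0 ≤ vh r l z y := div_nonneg (env2_RR_nonneg hr hl _ _) (hr _).le
  have hk : vh r l z y * vp r l y B ≤ κ ^ 2 := by
    rw [pow_two]
    exact mul_le_mul hh hp hp0 (le_trans hh0 hh)
  constructor
  · have h3 : vp r l z B = r z * (vh r l z y * vp r l y B) := by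
      unfold vp vh
      rw [env2_RR_mul r l h1 h2]
      have := (hr z).ne'
      field_simp
    rw [h3]
    calc r z * (vh r l z y * vp r l y B) ≤ 1 * (vh r l z y * vp r l y B) :=
          mul_le_mul_of_nonneg_right (hr1 z) (mul_nonneg hh0 hp0)
      _ ≤ κ ^ 2 := by rw [one_mul]; exact hk
  · have h3 : vh r l z B = r (B + 1) * (vh r l z y * vp r l y B) := by
      unfold vp vh
      rw [env2_RR_mul r l h1 h2]
      have := (hr (B + 1)).ne'
      field_simp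
    rw [h3]
    calc r (B + 1) * (vh r l z y * vp r l y B) ≤ 1 * (vh r l z y * vp r l y B) :=
          mul_le_mul_of_nonneg_right (hr1 _) (mul_nonneg hh0 hp0)
      _ ≤ κ ^ 2 := by rw [one_mul]; exact hk

theorem env2_det (r l : ℕ → ℝ) (hr : ∀ x, 0 < r x) (hr1 : ∀ x, r x ≤ 1) (hl : ∀ x, 0 ≤ l x)
    (N w : ℕ) (η0 γ q : ℝ) (hN : 1 ≤ N) (hw : 1 ≤ w) (hη : 0 < η0) (hq : 0 ≤ q)
    (hwη : (w : ℝ) * (1 + η0) ^ w ≤ (N : ℝ) ^ γ) (hwL : (w : ℝ) ≤ Real.log N ^ 8)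
    (hmaxp : ∀ z y, z ≤ y → y < N → vp r l z y ≤ (N : ℝ) ^ q)
    (hmaxh : ∀ z y, 1 ≤ z → z ≤ y → y < N → vh r l z y ≤ (N : ℝ) ^ q)
    (hn0 : ∀ y, y + 1 < N → y < w → vp r l 0 y ≤ (N : ℝ) ^ (1 / 4 : ℝ))
    (hn1 : ∀ z, 1 ≤ z → z ≤ N - 1 → N - 1 < z + w → vh r l z (N - 1) ≤ (N : ℝ) ^ (1 / 4 : ℝ)) :
    ∃ as : ℝ, 1 ≤ as ∧ (∀ y, y + 1 < N → atl r l η0 w y ≤ as) ∧
      (∀ y, y + 1 < N → atl (mirr N r) (mirr N l) η0 w y ≤ as) ∧
      as ≤ (N : ℝ) ^ (q + γ) ∧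
      ∀ κ : ℝ, CAPc N r l κ → as ≤ (N : ℝ) ^ γ * (κ ^ 2 + (N : ℝ) ^ (1 / 4 : ℝ)) := by
  classical
  have hN1 : (1 : ℝ) ≤ N := by exact_mod_cast hN
  have hN0 : (0 : ℝ) < N := by linarith
  let F : Finset (ℕ × ℕ) := ((Finset.range N) ×ˢ (Finset.range N)).filter
    (fun p => p.1 ≤ p.2 ∧ p.2 < p.1 + w)
  have hF : ∀ p : ℕ × ℕ, p ∈ F ↔ (p.1 < N ∧ p.2 < N) ∧ p.1 ≤ p.2 ∧ p.2 < p.1 + w := by
    intro p
    simp only [F, Finset.mem_filter, Finset.mem_product, Finset.mem_range]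
  have hne : F.Nonempty := ⟨(0, 0), by rw [hF]; simp only; omega⟩
  obtain ⟨p, hp, hpm⟩ := F.exists_max_image (env2_f r l N) hne
  rw [hF] at hp
  obtain ⟨v, hv⟩ : ∃ v : ℝ, v = max 1 (env2_f r l N p) := ⟨_, rfl⟩
  have hv1 : 1 ≤ v := by rw [hv]; exact le_max_left _ _
  have hv0 : 0 ≤ v := by linarith
  have hfp : ∀ z y : ℕ, z ≤ y → y < z + w → y + 1 < N → vp r l z y ≤ v := by
    intro z y h1 h2 h3
    have h4 := hpm (z, y) (by rw [hF]; simp only; omega)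
    have h5 : env2_f r l N (z, y) ≤ v := by
      rw [hv]
      exact le_trans h4 (le_max_right _ _)
    refine le_trans ?_ h5
    unfold env2_f
    simp only
    rw [if_pos h3]
    exact le_max_left _ _
  have hfh : ∀ z y : ℕ, 1 ≤ z → z ≤ y → y < z + w → y < N → vh r l z y ≤ v := by
    intro z y h0 h1 h2 h3
    have h4 := hpm (z, y) (by rw [hF]; simp only; omega)
    have h5 : env2_f r l N (z, y) ≤ v := by
      rw [hv]
      exact le_trans h4 (le_max_right _ _)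
    refine le_trans ?_ h5
    unfold env2_f
    simp only
    rw [if_pos h0]
    exact le_max_right _ _
  have hvB : ∀ B : ℝ, 1 ≤ B →
      (∀ z y : ℕ, z ≤ y → y < z + w → y + 1 < N → vp r l z y ≤ B) →
      (∀ z y : ℕ, 1 ≤ z → z ≤ y → y < z + w → y < N → vh r l z y ≤ B) → v ≤ B := by
    intro B hB h1 h2
    rw [hv]
    refine max_le hB ?_
    unfold env2_f
    refine max_le ?_ ?_
    · split_ifs with h3
      · exact h1 _ _ hp.2.1 hp.2.2 h3
      · linarith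
    · split_ifs with h3
      · exact h2 _ _ h3 hp.2.1 hp.2.2 hp.1.2
      · linarith
  have hwp : (1 : ℝ) ≤ w * (1 + η0) ^ w := by
    have h1 : (1 : ℝ) ≤ w := by exact_mod_cast hw
    have h2 : (1 : ℝ) ≤ (1 + η0) ^ w := one_le_pow₀ (by linarith)
    nlinarith
  have has : w * (1 + η0) ^ w * v ≤ (N : ℝ) ^ γ * v := mul_le_mul_of_nonneg_right hwη hv0
  refine ⟨w * (1 + η0) ^ w * v, ?_, ?_, ?_, ?_, ?_⟩
  · nlinarith
  · intro y hy
    refine env_atl_le hη hv0 fun d hd hdy => ?_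
    exact hfp (y - d) y (by omega) (by omega) hy
  · intro y hy
    refine env_atl_le hη hv0 fun d hd hdy => ?_
    rw [env_RR_mirr _ _ (by omega) (by omega)]
    have h1 := hfh (N - 1 - y) (N - 1 - (y - d)) (by omega) (by omega) (by omega) (by omega)
    have h2 : mirr N r (y + 1) = r (N - 1 - y) := by
      simp only [mirr]
      congr 1
      omega
    rw [h2]
    exact h1
  · calc (w : ℝ) * (1 + η0) ^ w * v ≤ (N : ℝ) ^ γ * v := has
      _ ≤ (N : ℝ) ^ γ * (N : ℝ) ^ q := by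
          refine mul_le_mul_of_nonneg_left ?_ (by positivity)
          refine hvB _ (Real.one_le_rpow hN1 hq) ?_ ?_
          · intro z y h1 _ h3
            exact hmaxp z y h1 (by omega)
          · intro z y h0 h1 _ h3
            exact hmaxh z y h0 h1 h3
      _ = (N : ℝ) ^ (q + γ) := by
          rw [← Real.rpow_add hN0]
          congr 1
          ring
  · intro κ hκ
    refine le_trans has (mul_le_mul_of_nonneg_left ?_ (by positivity))
    have hq4 : (1 : ℝ) ≤ (N : ℝ) ^ (1 / 4 : ℝ) := Real.one_le_rpow hN1 (by norm_num)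
    have hk2 : 0 ≤ κ ^ 2 := sq_nonneg _
    refine hvB _ (by linarith) ?_ ?_
    · intro z y h1 h2 h3
      rcases Nat.eq_zero_or_pos z with h0 | h0
      · subst h0
        have := hn0 y h3 (by omega)
        linarith
      · obtain ⟨x, hx1, hx2, hx3, hx4⟩ := hκ z y h0 h1 h3 (by
          have : (y : ℝ) ≤ z + w := by exact_mod_cast h2.le
          linarith)
        have := (env2_split hr hr1 hl hx1 hx2 hx3 hx4).1
        linarith
    · intro z y h0 h1 h2 h3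
      by_cases h4 : y + 1 < N
      · obtain ⟨x, hx1, hx2, hx3, hx4⟩ := hκ z y h0 h1 h4 (by
          have : (y : ℝ) ≤ z + w := by exact_mod_cast h2.le
          linarith)
        have := (env2_split hr hr1 hl hx1 hx2 hx3 hx4).2
        linarith
      · have h5 : y = N - 1 := by omega
        subst h5
        have := hn1 z h0 h1 h2
        linarith

theorem env2_asym (κ γ c : ℝ) (m0 : ℕ) (hκ : 0 < κ) (hγ : 0 < γ) (hc : 0 < c) :
    ∃ N0 : ℕ, ∀ N : ℕ, N0 ≤ N → 2 ≤ N ∧ κ * Real.log N + m0 + 3 ≤ Real.log N ^ 2 ∧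
      (m0 : ℝ) + 3 ≤ Real.log N ∧ Real.log N ^ 2 ≤ (N : ℝ) ^ (γ / 2) ∧
      6 * Real.log N ^ 2 ≤ c * N := by
  obtain ⟨N0, hN0⟩ := env_asym κ γ (c / 2) m0 hκ hγ (by positivity)
  refine ⟨max N0 2, fun N hN => ?_⟩
  obtain ⟨a1, a2, a3, a4, a5⟩ := hN0 N (le_trans (le_max_left _ _) hN)
  exact ⟨le_trans (le_max_right _ _) hN, a2, a3, a4, by linarith⟩

theorem env2_far {N : ℕ} (hN : 2 ≤ N) :
    (N : ℝ) ^ (-12 : ℝ) + (N : ℝ) ^ (-90 : ℝ) ≤ (N : ℝ) ^ (-11 : ℝ) := by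
  have hN2 : (2 : ℝ) ≤ N := by exact_mod_cast hN
  have hN0 : (0 : ℝ) < N := by linarith
  have h1 : (N : ℝ) ^ (-90 : ℝ) ≤ (N : ℝ) ^ (-12 : ℝ) :=
    Real.rpow_le_rpow_of_exponent_le (by linarith) (by norm_num)
  have h2 : (N : ℝ) ^ (-11 : ℝ) = (N : ℝ) ^ (-12 : ℝ) * N := by
    nth_rewrite 3 [← Real.rpow_one (N : ℝ)]
    rw [← Real.rpow_add hN0]
    norm_num
  have h3 : 0 < (N : ℝ) ^ (-12 : ℝ) := Real.rpow_pos_of_pos hN0 _
  rw [h2]
  nlinarith

theorem env2_union12 {Ω : Type} [MeasurableSpace Ω] (P : Measure Ω)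
    (A1 A2 A3 A4 A5 A6 A7 A8 A9 A10 A11 A12 S : Set Ω) (q : ℝ) (_hq : 0 < q)
    (h1 : P A1 ≤ ENNReal.ofReal q) (h2 : P A2 ≤ ENNReal.ofReal q)
    (h3 : P A3 ≤ ENNReal.ofReal q) (h4 : P A4 ≤ ENNReal.ofReal q) (h5 : P A5 ≤ ENNReal.ofReal q)
    (h6 : P A6 ≤ ENNReal.ofReal q) (h7 : P A7 ≤ ENNReal.ofReal q) (h8 : P A8 ≤ ENNReal.ofReal q)
    (h9 : P A9 ≤ ENNReal.ofReal q) (h10 : P A10 ≤ ENNReal.ofReal q)
    (h11 : P A11 ≤ ENNReal.ofReal q) (h12 : P A12 ≤ ENNReal.ofReal q)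
    (hS : ∀ ω, ω ∉ A1 → ω ∉ A2 → ω ∉ A3 → ω ∉ A4 → ω ∉ A5 → ω ∉ A6 → ω ∉ A7 → ω ∉ A8 →
      ω ∉ A9 → ω ∉ A10 → ω ∉ A11 → ω ∉ A12 → ω ∉ S) :
    P S ≤ ENNReal.ofReal (12 * q) := by
  have hsub : S ⊆ A1 ∪ (A2 ∪ (A3 ∪ (A4 ∪ (A5 ∪ (A6 ∪ (A7 ∪ (A8 ∪ (A9 ∪ (A10 ∪
      (A11 ∪ A12)))))))))) := by
    intro ω hω
    by_contra hcon
    simp only [Set.mem_union, not_or] at hcon
    obtain ⟨b1, b2, b3, b4, b5, b6, b7, b8, b9, b10, b11, b12⟩ := hcon
    exact hS ω b1 b2 b3 b4 b5 b6 b7 b8 b9 b10 b11 b12 hω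
  have e : ENNReal.ofReal (12 * q) = 12 * ENNReal.ofReal q := by
    rw [ENNReal.ofReal_mul (by norm_num)]
    norm_num
  have e' : (12 : ENNReal) * ENNReal.ofReal q = ENNReal.ofReal q + (ENNReal.ofReal q +
      (ENNReal.ofReal q + (ENNReal.ofReal q + (ENNReal.ofReal q + (ENNReal.ofReal q +
      (ENNReal.ofReal q + (ENNReal.ofReal q + (ENNReal.ofReal q + (ENNReal.ofReal q +
      (ENNReal.ofReal q + ENNReal.ofReal q)))))))))) := by ring
  rw [e, e']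
  refine (measure_mono hsub).trans ?_
  refine (measure_union_le _ _).trans (add_le_add h1 ?_)
  refine (measure_union_le _ _).trans (add_le_add h2 ?_)
  refine (measure_union_le _ _).trans (add_le_add h3 ?_)
  refine (measure_union_le _ _).trans (add_le_add h4 ?_)
  refine (measure_union_le _ _).trans (add_le_add h5 ?_)
  refine (measure_union_le _ _).trans (add_le_add h6 ?_)
  refine (measure_union_le _ _).trans (add_le_add h7 ?_)
  refine (measure_union_le _ _).trans (add_le_add h8 ?_)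
  refine (measure_union_le _ _).trans (add_le_add h9 ?_)
  refine (measure_union_le _ _).trans (add_le_add h10 ?_)
  exact (measure_union_le _ _).trans (add_le_add h11 h12)

theorem st_ENV2 (hJ : ST_JEN) (hF : ST_EVFAR) (hS : ST_EVSUM) (hNr : ST_EVNEAR) (hM : ST_EVMAX)
    (hPair : ST_EVPAIR) (hShal : ST_EVSHAL) (hSm : ST_EVSM) (hCap : ST_EXCAP)
    (hCapm : ST_CAPM) : ST_ENV2 := by
  intro Ω _ P X s hI hs hms c ηp e0 γ hc hηp he0 hγ hγ1
  obtain ⟨θ, hθ0, hθ1, hm1, hmsθ⟩ := hJ Ω P X s hI hs hms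
  obtain ⟨ηq, hηq'⟩ : ∃ ηq : ℝ, ηq = ηp / 12 := ⟨_, rfl⟩
  have hηq : 0 < ηq := by rw [hηq']; positivity
  obtain ⟨N1, hFar⟩ := hF Ω P X θ hI hθ0 hθ1 hm1 ηq hηq
  obtain ⟨C1a, ηm, hC1a, hηm, hSum⟩ := hS Ω P X θ hI hθ0 hθ1 hm1 ηq hηq
  obtain ⟨Cs, c1, m0, hCs, hc1, hc1', hNear⟩ := hNr Ω P X θ hI hθ0 hθ1 hm1 ηq e0 hηq he0
  obtain ⟨c2, hc2, hc2', hEx⟩ := hCap Ω P X θ hI hθ0 hθ1 hm1 ηq hηq
  obtain ⟨N2, hNear'⟩ := hNear γ hγ
  obtain ⟨N3, hEx'⟩ := hEx γ hγ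
  obtain ⟨N4, hMax⟩ := hM Ω P X s θ hI hs hθ0 hθ1 hmsθ ηq γ hηq hγ
  obtain ⟨N6, hPair'⟩ := hPair Ω P X θ hI hθ0 hθ1 hm1 ηq hηq
  obtain ⟨N7, hShal'⟩ := hShal Ω P X θ hI hθ0 hθ1 hm1 ηq hηq
  obtain ⟨⟨C1b, N8, hC1b, hSmA⟩, ⟨N9, hSmB⟩, ⟨N10, hSmC⟩⟩ := hSm Ω P X θ hI hθ0 hθ1 hm1 ηq hηq
  obtain ⟨N11, hCapm'⟩ := hCapm
  obtain ⟨κ, hκd⟩ : ∃ κ : ℝ, κ = 15 / Real.log (1 / θ) := ⟨_, rfl⟩
  have hκ : 0 < κ := by
    rw [hκd]
    refine div_pos (by norm_num) (Real.log_pos ?_)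
    rw [lt_div_iff₀ hθ0]
    linarith
  obtain ⟨N5, hAs⟩ := env2_asym κ γ c m0 hκ hγ hc
  obtain ⟨η0, hη0d⟩ : ∃ η0 : ℝ, η0 = min ηm (min 1 (γ / (2 * (κ + 1)))) := ⟨_, rfl⟩
  have hη0 : 0 < η0 := by
    rw [hη0d]
    exact lt_min hηm (lt_min one_pos (by positivity))
  have hη0m : η0 ≤ ηm := by rw [hη0d]; exact min_le_left _ _
  have hη01 : η0 ≤ 1 := by rw [hη0d]; exact le_trans (min_le_right _ _) (min_le_left _ _)
  have hη0γ : η0 * (κ + 1) ≤ γ / 2 := by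
    have : η0 ≤ γ / (2 * (κ + 1)) := by
      rw [hη0d]
      exact le_trans (min_le_right _ _) (min_le_right _ _)
    calc η0 * (κ + 1) ≤ γ / (2 * (κ + 1)) * (κ + 1) :=
          mul_le_mul_of_nonneg_right this (by positivity)
      _ = γ / 2 := by field_simp
  refine ⟨η0, Cs, max C1a C1b, c1, c2, m0, hη0, hη01, hCs, le_trans hC1a (le_max_left _ _), hc1,
    hc1', hc2, hc2', N1 + N2 + N3 + N4 + N5 + N6 + N7 + N8 + N9 + N10 + N11, ?_⟩
  intro N k hN hk1 hk2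
  obtain ⟨a1', a2, a3, a4, a5⟩ := hAs N (by omega)
  have a1 : 1 ≤ N := by omega
  have hN1 : (1 : ℝ) ≤ N := by exact_mod_cast a1
  have hN0 : (0 : ℝ) < N := by linarith
  have hm0 : (0 : ℝ) ≤ m0 := Nat.cast_nonneg _
  have hL : 1 ≤ Real.log N := by linarith
  obtain ⟨w, hwd⟩ : ∃ w : ℕ, w = ⌈κ * Real.log N⌉₊ + m0 + 1 := ⟨_, rfl⟩
  have hwc : (w : ℝ) = (⌈κ * Real.log N⌉₊ : ℝ) + m0 + 1 := by
    rw [hwd]
    push_cast
    rfl
  have hw1 : κ * Real.log N ≤ w := by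
    have := Nat.le_ceil (κ * Real.log N)
    linarith
  have hw2 : (w : ℝ) + 1 ≤ κ * Real.log N + m0 + 3 := by
    have := Nat.ceil_lt_add_one (a := κ * Real.log N) (by positivity)
    linarith
  have hwlog : (w : ℝ) ≤ Real.log N ^ 2 := by linarith
  have hm0w : m0 ≤ w := by omega
  have hw0 : 1 ≤ w := by omega
  have hpow : (1 + η0) ^ (w + 1) ≤ (N : ℝ) ^ (γ / 2) := by
    calc (1 + η0) ^ (w + 1) ≤ (Real.exp η0) ^ (w + 1) := by
          refine pow_le_pow_left₀ (by linarith) ?_ _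
          have := Real.add_one_le_exp η0
          linarith
      _ = Real.exp (((w + 1 : ℕ) : ℝ) * η0) := (Real.exp_nat_mul η0 (w + 1)).symm
      _ ≤ Real.exp (Real.log N * (γ / 2)) := by
          refine Real.exp_le_exp.mpr ?_
          push_cast
          have h1 : (w : ℝ) + 1 ≤ (κ + 1) * Real.log N := by linarith
          calc ((w : ℝ) + 1) * η0 ≤ (κ + 1) * Real.log N * η0 :=
                mul_le_mul_of_nonneg_right h1 hη0.le
            _ = Real.log N * (η0 * (κ + 1)) := by ring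
            _ ≤ _ := mul_le_mul_of_nonneg_left hη0γ (by linarith)
      _ = (N : ℝ) ^ (γ / 2) := by rw [Real.rpow_def_of_pos hN0]
  have hkN : k ≤ N := by
    have : (k : ℝ) ≤ N := by nlinarith
    exact_mod_cast this
  have hk0 : 1 ≤ k := by
    have : (0 : ℝ) < k := lt_of_lt_of_le (by positivity) hk1
    exact_mod_cast this
  have h6w : 6 * w ≤ N - k := by
    have : (6 * w + k : ℝ) ≤ N := by nlinarith
    have h' : 6 * w + k ≤ N := by exact_mod_cast this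
    omega
  have h6w' : N - k + 6 * w ≤ N := by
    have : (6 * w : ℝ) ≤ k := by linarith
    have h' : 6 * w ≤ k := by exact_mod_cast this
    omega
  have htiny : (1 + η0) ^ (w + 1) ≤ (N : ℝ) := by
    refine le_trans hpow ?_
    calc (N : ℝ) ^ (γ / 2) ≤ (N : ℝ) ^ (1 : ℝ) :=
          Real.rpow_le_rpow_of_exponent_le hN1 (by linarith)
      _ = N := Real.rpow_one _
  have hwη : (w : ℝ) * (1 + η0) ^ w ≤ (N : ℝ) ^ γ := by
    calc (w : ℝ) * (1 + η0) ^ w ≤ (N : ℝ) ^ (γ / 2) * (N : ℝ) ^ (γ / 2) := by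
          refine mul_le_mul (le_trans hwlog a4) ?_ (by positivity) (by positivity)
          refine le_trans ?_ hpow
          exact pow_le_pow_right₀ (by linarith) (by omega)
      _ = (N : ℝ) ^ γ := by
          rw [← Real.rpow_add hN0]
          congr 1
          ring
  have hw8 : (w : ℝ) ≤ Real.log N ^ 8 :=
    le_trans hwlog (pow_le_pow_right₀ hL (by norm_num))
  have hfin : ENNReal.ofReal (12 * ηq) = ENNReal.ofReal ηp := by
    congr 1
    rw [hηq']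
    ring
  rw [← hfin]
  refine env2_union12 P _ _ _ _ _ _ _ _ _ _ _ _ _ ηq hηq
    (hFar N w (by omega) (by rw [← hκd]; exact hw1))
    (hSum η0 N w hη0 hη0m a1) (hNear' N k w (by omega) hkN (by omega) (by omega) hwlog)
    (hMax N (by omega)) (hPair' N (by omega)) (hShal' N w (by omega) hw0 hwlog)
    (hSmA N (by omega)) (hSmB N 0 (by omega) (by omega)) (hSmB N (N - 1) (by omega) (by omega))
    (hSmB N (N - k) (by omega) (by omega)) (hSmC N (N - k) w (by omega) h6w h6w' hwlog)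
    (hEx' N (by omega)) ?_
  intro ω b1 b2 b3 b4 b5 b6 b7 b8 b9 b10 b11 b12
  simp only [Set.mem_ofPred_eq, not_not] at b1 b2 b3 b5 b6 b7 b8 b9 b10 b11 b12
  rw [Set.mem_ofPred_eq] at b4
  rw [Set.mem_ofPred_eq, not_not]
  obtain ⟨f1, f2, f3⟩ := b1
  obtain ⟨g1, g2⟩ := b2
  obtain ⟨n1, n2, n3, n4, n5⟩ := b3
  obtain ⟨p1, p2, p3⟩ := b5
  obtain ⟨s1, s2⟩ := b7
  have hrp : ∀ x, 0 < rE (EE X ω) x := fun x => (hI.rng (x - 1) ω).1
  have hr1 : ∀ x, rE (EE X ω) x ≤ 1 := fun x => (hI.rng (x - 1) ω).2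
  have hl0 : ∀ x, 0 ≤ lE (EE X ω) x := by
    intro x
    have := (hI.rng x ω).2
    simp only [lE, EE]
    linarith
  have hadm : Adm N (rE (EE X ω)) (lE (EE X ω)) := by
    intro x _ _
    refine ⟨hrp x, hr1 x, hl0 x, ?_⟩
    have := (hI.rng x ω).1
    simp only [lE, EE]
    linarith
  obtain ⟨q1, q2, q3⟩ := hCapm' N (rE (EE X ω)) (lE (EE X ω)) (by omega) hadm f3 f2
  have hNm : (0 : ℝ) < (N : ℝ) ^ (-100 : ℝ) := Real.rpow_pos_of_pos hN0 _
  have hNm1 : (N : ℝ) ^ (-100 : ℝ) ≤ 1 := by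
    rw [← Real.rpow_zero (N : ℝ)]
    exact Real.rpow_le_rpow_of_exponent_le hN1 (by norm_num)
  have hmaxp : ∀ z y, z ≤ y → y < N →
      vp (rE (EE X ω)) (lE (EE X ω)) z y ≤ (N : ℝ) ^ (1 / s + γ) := by
    intro z y h1 h2
    by_contra hcon
    push Not at hcon
    apply b4
    refine ⟨z, y, h1, h2, Or.inl ?_⟩
    have h3 := hcon.le
    simp only [vp, rE, EE, Nat.add_sub_cancel] at h3 ⊢
    exact h3
  have hmaxh : ∀ z y, 1 ≤ z → z ≤ y → y < N →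
      vh (rE (EE X ω)) (lE (EE X ω)) z y ≤ (N : ℝ) ^ (1 / s + γ) := by
    intro z y h0 h1 h2
    by_contra hcon
    push Not at hcon
    apply b4
    refine ⟨z, y, h1, h2, Or.inr ⟨h0, ?_⟩⟩
    have h3 := hcon.le
    simp only [vh, rE, EE] at h3 ⊢
    exact h3
  have hL8 : 0 ≤ Real.log N ^ 8 := by positivity
  obtain ⟨as, has1, hl, hr, hq, halt⟩ := env2_det (rE (EE X ω)) (lE (EE X ω)) hrp hr1 hl0 N w η0 γ
    (1 / s + γ) a1 hw0 hη0 (by positivity) hwη hw8 hmaxp hmaxh (by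
      intro y h1 h2
      refine le_trans (q2 0 y (by omega) h1).1 (b8.1 0 y (by omega) h1 ?_ ?_)
      · push_cast
        linarith
      · have : (y : ℝ) ≤ w := by exact_mod_cast h2.le
        push_cast
        linarith) (by
      intro z h0 h1 h2
      refine le_trans (q3 z (N - 1) h0 h1 (by omega)).1 (b9.2 z (N - 1) h0 h1 (by omega) ?_ ?_)
      · have : ((N - 1 : ℕ) : ℝ) ≤ z + w := by exact_mod_cast h2.le
        linarith
      · linarith)
  refine ⟨w, as, ⟨hadm, hkN, f3, f2, f1, htiny, hw0, hwlog, hm0w, by omega, by omega, has1, hl, hr,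
    ?_, ?_, n1, n2, n3, n4, n5⟩, ⟨?_, ?_, ?_, f3, ?_, hw0, hwlog, p1, p2, p3, b6, ?_, ?_⟩, b11, ?_,
    ?_, b12, ?_⟩
  · exact le_trans g1 (mul_le_mul_of_nonneg_right (le_max_left _ _) hN0.le)
  · exact le_trans g2 (mul_le_mul_of_nonneg_right (le_max_left _ _) hN0.le)
  · intro x hx1 hx2
    obtain ⟨h1, h2, h3, h4⟩ := hadm x hx1 hx2
    exact ⟨h1, h2, le_trans h3 (le_max_left _ _), max_le h4 hNm1⟩
  · intro x
    exact ⟨hrp x, le_trans hNm.le (le_max_right _ _)⟩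
  · intro x _ _
    exact le_max_right _ _
  · intro z x h1 h2
    refine le_trans (q1 z x (by omega) h2).2 ?_
    have := f1 z x h1 h2
    have h3 := env2_far a1'
    linarith
  · exact le_trans s1 (mul_le_mul_of_nonneg_right (le_max_right _ _) hN0.le)
  · exact le_trans s2 (mul_le_mul_of_nonneg_right (le_max_right _ _) hN0.le)
  · intro p hp
    rcases hp with rfl | rfl | rfl
    · exact b8
    · exact b9
    · exact b10
  · refine le_trans hq (Real.rpow_le_rpow_of_exponent_le hN1 (by linarith))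
  · intro κ' hκ'
    refine le_trans (halt κ' hκ') (mul_le_mul_of_nonneg_right ?_ (by positivity))
    exact Real.rpow_le_rpow_of_exponent_le hN1 (by linarith)

end Pool.Agent.Helper98.EX
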