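import Pool.Agent.Helper98.EY.StmtsC

/-!
# MP_157eb8_pr: capacities in the bulk (module GAINC)
-/

set_option autoImplicit false

namespace Pool.Agent.Helper98.EX

open Finset

theorem gainc_num (c0 : ℝ) (h : 0 < c0) : ∃ N2 : ℕ, ∀ N : ℕ, N2 ≤ N →
    3 ≤ N ∧ 1 ≤ Real.log N ∧ 40 * Real.log N ^ 10132 * (N : ℝ) ^ (1 / 8 : ℝ) ≤ c0 * N := by
  have h1 : ∀ᶠ x : ℝ in Filter.atTop,
      ‖Real.log x ^ (10132 : ℝ)‖ ≤ c0 / 40 * ‖x ^ (7 / 8 : ℝ)‖ :=
    (isLittleO_log_rpow_rpow_atTop (10132 : ℝ) (by norm_num : (0 : ℝ) < 7 / 8)).def (by positivity)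
  have h2 := tendsto_natCast_atTop_atTop.eventually h1
  have h3 : ∀ᶠ x : ℝ in Filter.atTop, 1 ≤ Real.log x :=
    Real.tendsto_log_atTop.eventually_ge_atTop _
  have h4 := tendsto_natCast_atTop_atTop.eventually h3
  have h5 := (h2.and h4).and (Filter.eventually_ge_atTop 3)
  rw [Filter.eventually_atTop] at h5
  obtain ⟨N2, hN2⟩ := h5
  refine ⟨N2, fun N hN => ?_⟩
  obtain ⟨⟨a1, a2⟩, a3⟩ := hN2 N hN
  refine ⟨a3, a2, ?_⟩
  have hNpos : (0 : ℝ) < N := by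
    have : 0 < N := by omega
    exact_mod_cast this
  have e1 : Real.log N ^ (10132 : ℝ) = Real.log N ^ 10132 := by
    rw [← Real.rpow_natCast]
    norm_num
  rw [e1, Real.norm_of_nonneg (by positivity), Real.norm_of_nonneg (by positivity)] at a1
  have e2 : (N : ℝ) ^ (7 / 8 : ℝ) * (N : ℝ) ^ (1 / 8 : ℝ) = N := by
    rw [← Real.rpow_add hNpos]
    norm_num
  calc 40 * Real.log N ^ 10132 * (N : ℝ) ^ (1 / 8 : ℝ)
      ≤ 40 * (c0 / 40 * (N : ℝ) ^ (7 / 8 : ℝ)) * (N : ℝ) ^ (1 / 8 : ℝ) := by gcongr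
    _ = c0 * ((N : ℝ) ^ (7 / 8 : ℝ) * (N : ℝ) ^ (1 / 8 : ℝ)) := by ring
    _ = c0 * N := by rw [e2]

theorem gainc_inc (N k x : ℕ) : Inc k (fun ξ : Cfg N => (ht ξ x : ℝ)) := by
  intro η ξ _ _ h
  have h1 := h x
  rw [add_zero] at h1
  show ((ht η x : ℕ) : ℝ) ≤ ((ht ξ x : ℕ) : ℝ)
  exact_mod_cast h1

theorem st_GAINC (h1 : ST_TWOG) (h2 : ST_CMOM) (h3 : ST_RTM) (h4 : ST_GAIN) (h5 : ST_TIME) :
    ST_GAINC := by
  intro ε c c2 C1 m0 hε hc hc2
  obtain ⟨c1, N1, hc1, hgain⟩ := h4 ε c c2 m0 hε hc hc2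
  obtain ⟨c0, hc0⟩ : ∃ c0 : ℝ, c0 = min c1 (min c2 1) := ⟨_, rfl⟩
  have hc0p : 0 < c0 := by
    rw [hc0]
    exact lt_min hc1 (lt_min hc2 one_pos)
  have hc01 : c0 ≤ c1 := by rw [hc0]; exact min_le_left _ _
  have hc02 : c0 ≤ c2 := by rw [hc0]; exact (min_le_right _ _).trans (min_le_left _ _)
  have hc03 : c0 ≤ 1 := by rw [hc0]; exact (min_le_right _ _).trans (min_le_right _ _)
  obtain ⟨N2, hN2⟩ := gainc_num c0 hc0p
  refine ⟨c1 / 4, max N1 N2, by positivity, ?_⟩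
  intro N k b w m1 r l hN hk1 hk2 hA hG hrb hb1 hb2 hpr hT1 hT2
  obtain ⟨hN3, hL1, hnum⟩ := hN2 N ((le_max_right _ _).trans hN)
  have hg := hgain N k r l m1 b ((le_max_left _ _).trans hN) hk1 hk2 hA hb1 hb2 hpr
  -- basic facts
  have hN0 : 0 < N := by omega
  have hNr : (3 : ℝ) ≤ N := by exact_mod_cast hN3
  have hNp : (0 : ℝ) < N := by linarith
  obtain ⟨L, hL⟩ : ∃ L, L = Real.log N := ⟨_, rfl⟩
  obtain ⟨P, hP⟩ : ∃ P, P = L ^ 5066 := ⟨_, rfl⟩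
  obtain ⟨Q, hQ⟩ : ∃ Q, Q = L ^ 4601 := ⟨_, rfl⟩
  rw [← hL] at hL1 hnum hrb hT1
  have hL0 : 0 < L := by linarith
  have hP1 : 1 ≤ P := by rw [hP]; exact one_le_pow₀ hL1
  have hQ1 : 1 ≤ Q := by rw [hQ]; exact one_le_pow₀ hL1
  have hQP : Q ≤ P := by
    rw [hQ, hP]
    exact pow_le_pow_right₀ hL1 (by norm_num)
  have hPP : L ^ 10132 = P * P := by
    rw [hP, ← pow_add]
  have hQ465 : L ^ 465 * Q = P := by
    rw [hP, hQ, ← pow_add]
  have hQ200 : Q * L ^ 200 ≤ P := by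
    rw [hP, hQ, ← pow_add]
    exact pow_le_pow_right₀ hL1 (by norm_num)
  have hL2P : L ^ 2 ≤ P := by
    rw [hP]
    exact pow_le_pow_right₀ hL1 (by norm_num)
  rw [hPP] at hnum
  obtain ⟨m, hm⟩ : ∃ m, m = msN N := ⟨_, rfl⟩
  have hm1 : 2 * N * Q ≤ m := by
    rw [hm, msN, hQ, hL]
    exact Nat.le_ceil _
  have hm3 : (m : ℝ) < 2 * N * Q + 1 := by
    rw [hm, msN, hQ, hL]
    exact Nat.ceil_lt_add_one (by rw [← hL]; positivity)
  clear hPP hP hQ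
  obtain ⟨s, hs⟩ : ∃ s, s = (N : ℝ) ^ (1 / 8 : ℝ) := ⟨_, rfl⟩
  rw [← hs] at hnum
  have hs1 : 1 ≤ s := by
    rw [hs]
    exact Real.one_le_rpow (by linarith) (by norm_num)
  have hPPP : P ≤ P * P := le_mul_of_one_le_left (by linarith) hP1
  have hPs : P ≤ P * P * s := by
    calc P ≤ P * P := hPPP
      _ = P * P * 1 := by ring
      _ ≤ P * P * s := by gcongr
  have h40P : 40 * P ≤ c0 * N := by
    calc 40 * P ≤ 40 * (P * P * s) := by gcongr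
      _ = 40 * (P * P) * s := by ring
      _ ≤ c0 * N := hnum
  have h40N : 40 * P ≤ N := by
    calc 40 * P ≤ c0 * N := h40P
      _ ≤ 1 * N := by gcongr
      _ = N := one_mul _
  -- the window
  have hw1 := hG.w1
  have hwl := hG.wlog
  rw [← hL] at hwl
  have hwb : w + 2 ≤ b := by
    have : ((w + 2 : ℕ) : ℝ) ≤ b := by
      push_cast
      calc (w : ℝ) + 2 ≤ P + 2 := by linarith
        _ ≤ 40 * P := by linarith
        _ ≤ c0 * N := h40P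
        _ ≤ c2 * N := by gcongr
        _ ≤ b := hb1
    exact_mod_cast this
  have hbw : b + (w + 2) ≤ N := by
    have : ((b + (w + 2) : ℕ) : ℝ) ≤ N := by
      push_cast
      have : (w : ℝ) + 2 ≤ c2 * N := by
        calc (w : ℝ) + 2 ≤ P + 2 := by linarith
          _ ≤ 40 * P := by linarith
          _ ≤ c0 * N := h40P
          _ ≤ c2 * N := by gcongr
      linarith
    exact_mod_cast this
  have hkN : k ≤ N := by
    have : (k : ℝ) ≤ N := by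
      have := mul_pos hc hNp
      linarith
    exact_mod_cast this
  have hpos : Pos N (modl N l) := by
    intro x hx1 hx2
    exact lt_of_lt_of_le (by positivity) (hG.low x hx1 hx2)
  -- the number of steps
  have hm2 : (m : ℝ) ≤ 3 * N * Q := by
    have : 1 * 1 ≤ (N : ℝ) * Q := mul_le_mul (by linarith) hQ1 zero_le_one hNp.le
    linarith
  have hmp : (0 : ℝ) < m := lt_of_lt_of_le (by positivity) hm1
  obtain ⟨ρ, hρ⟩ : ∃ ρ : ℝ, ρ = m1 / m := ⟨_, rfl⟩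
  have hρm : ρ * m = m1 := by rw [hρ]; field_simp
  have hT1' : 2 * (N : ℝ) ^ 3 ≤ m1 * L ^ 200 := by
    rw [div_le_div_iff₀ (by positivity) (by positivity)] at hT1
    linarith
  have hρ1 : 1 ≤ ρ := by
    rw [hρ, le_div_iff₀ hmp, one_mul]
    have e1 : (m : ℝ) * L ^ 200 ≤ m1 * L ^ 200 := by
      calc (m : ℝ) * L ^ 200 ≤ (3 * N * Q) * L ^ 200 := by gcongr
        _ = 3 * N * (Q * L ^ 200) := by ring
        _ ≤ 3 * N * P := by gcongr
        _ ≤ 3 * N * N := by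
          gcongr
          linarith
        _ = 3 * (N : ℝ) ^ 2 := by ring
        _ ≤ (2 * N) * (N : ℝ) ^ 2 := by
          gcongr
          linarith
        _ = 2 * (N : ℝ) ^ 3 := by ring
        _ ≤ m1 * L ^ 200 := hT1'
    exact le_of_mul_le_mul_right e1 (by positivity)
  have hs2 : (N : ℝ) ^ (17 / 8 : ℝ) = (N : ℝ) ^ 2 * s := by
    rw [hs, ← Real.rpow_natCast, ← Real.rpow_add hNp]
    norm_num
  rw [hs2] at hT2
  have hρ2 : ρ ≤ (N : ℝ) ^ 2 * s := by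
    rw [hρ, div_le_iff₀ hmp]
    rw [div_le_iff₀ (by positivity)] at hT2
    calc (m1 : ℝ) ≤ (N : ℝ) ^ 2 * s * (2 * N) := hT2
      _ ≤ (N : ℝ) ^ 2 * s * m := by
        have e3 : 2 * (N : ℝ) * 1 ≤ 2 * N * Q := by gcongr
        gcongr
        linarith
  obtain ⟨J, hJ⟩ : ∃ J : ℕ, J = ⌈ρ⌉₊ := ⟨_, rfl⟩
  have hJ1 : ρ ≤ J := by rw [hJ]; exact Nat.le_ceil _
  have hJ2 : (J : ℝ) ≤ 2 * ρ := by
    have : (J : ℝ) < ρ + 1 := by
      rw [hJ]
      exact Nat.ceil_lt_add_one (by linarith)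
    linarith
  have hmJ : m1 ≤ m * J := by
    have : (m1 : ℝ) ≤ ((m * J : ℕ) : ℝ) := by
      push_cast
      rw [← hρm, mul_comm]
      gcongr
    exact_mod_cast this
  -- the chain of inequalities
  have hr0 : 0 ≤ r b := (hA b (by omega) (by omega)).1.le
  have hrm : r b * m ≤ 3 * P := by
    calc r b * m ≤ r b * (3 * N * Q) := by gcongr
      _ = 3 * ((r b * N) * Q) := by ring
      _ ≤ 3 * (L ^ 465 * Q) := by gcongr
      _ = 3 * P := by rw [hQ465]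
  have htw := h1 N r (modl N l) b (w + 2) m ((N : ℝ) ^ (-11 : ℝ)) hG.adm hpos (by omega) hwb hbw
    (by positivity)
    (hG.far _ _ (by omega) (by omega)) (hG.far _ _ (by omega) (by omega))
    (by linarith)
  have hrt := h3 N r l b m (bot N b) (by omega) hA
  have hcm := (h2 N k b m J r l hA hkN (by omega) (by omega)).1
  have htime := h5 N k r l m1 (m * J) (fun ξ => (ht ξ b : ℝ)) hkN hA (gainc_inc N k b) hmJ
  rw [ht_bot hkN] at hg
  obtain ⟨cm, hcmdef⟩ : ∃ cm, cm = ev r l (fun _ => full N) m (fun ξ => (ht ξ b : ℝ)) (bot N b) :=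
    ⟨_, rfl⟩
  rw [← hcmdef] at hcm hrt
  obtain ⟨cp, hcp⟩ : ∃ cp, cp = cpb N r (modl N l) w b := ⟨_, rfl⟩
  have hcp' : r b * kap N r (modl N l) b (w + 2) m = cp := by
    rw [hcp, cpb, hm]
  rw [hcp'] at htw
  rw [← hcp, ← hm]
  have hmain : c1 * N ≤ J * cm := by linarith
  -- the error
  have hx : r b * m / (2 * N) ≤ 3 * P / (2 * N) := by gcongr
  have hx0 : 0 ≤ r b * m / (2 * N) := by positivity
  have hx2 : 2 * (r b * m / (2 * N)) ^ 2 ≤ 9 / 2 * (P * P) / (N : ℝ) ^ 2 := by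
    calc 2 * (r b * m / (2 * N)) ^ 2 ≤ 2 * (3 * P / (2 * N)) ^ 2 := by gcongr
      _ = 9 / 2 * (P * P) / (N : ℝ) ^ 2 := by
        field_simp
        ring
  have e11 : (N : ℝ) ^ (-11 : ℝ) ≤ 1 / (N : ℝ) ^ 2 := by
    rw [one_div, ← Real.rpow_natCast, ← Real.rpow_neg hNp.le]
    exact Real.rpow_le_rpow_of_exponent_le (by linarith) (by norm_num)
  have e100 : (N : ℝ) ^ (-100 : ℝ) ≤ 1 / (N : ℝ) ^ 3 := by
    rw [one_div, ← Real.rpow_natCast, ← Real.rpow_neg hNp.le]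
    exact Real.rpow_le_rpow_of_exponent_le (by linarith) (by norm_num)
  have hm2' : (m : ℝ) / (2 * N) ≤ 3 / 2 * P := by
    rw [div_le_iff₀ (by positivity)]
    have : 3 * (N : ℝ) * Q ≤ 3 * N * P := by gcongr
    linarith
  have hy2 : ((m : ℝ) / (2 * N)) ^ 2 * (N : ℝ) ^ (-11 : ℝ) ≤ 9 / 4 * (P * P) / (N : ℝ) ^ 2 := by
    calc ((m : ℝ) / (2 * N)) ^ 2 * (N : ℝ) ^ (-11 : ℝ)
        ≤ (3 / 2 * P) ^ 2 * (1 / (N : ℝ) ^ 2) := by gcongr
      _ = 9 / 4 * (P * P) / (N : ℝ) ^ 2 := by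
        field_simp
        ring
  have hz2 : m * (N : ℝ) ^ (-100 : ℝ) ≤ 3 * (P * P) / (N : ℝ) ^ 2 := by
    calc m * (N : ℝ) ^ (-100 : ℝ) ≤ (3 * N * (P * P)) * (1 / (N : ℝ) ^ 3) := by
          gcongr
          calc (m : ℝ) ≤ 3 * N * Q := hm2
            _ ≤ 3 * N * (P * P) := by gcongr; linarith
      _ = 3 * (P * P) / (N : ℝ) ^ 2 := by
        field_simp
  have herr : cm ≤ cp + 10 * (P * P) / (N : ℝ) ^ 2 := by
    have : 9 / 2 * (P * P) / (N : ℝ) ^ 2 + 9 / 4 * (P * P) / (N : ℝ) ^ 2 +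
        3 * (P * P) / (N : ℝ) ^ 2 ≤ 10 * (P * P) / (N : ℝ) ^ 2 := by
      have hPP0 : 0 ≤ P * P := by positivity
      rw [← add_div, ← add_div]
      gcongr
      linarith
    linarith
  have hJe : J * (10 * (P * P) / (N : ℝ) ^ 2) ≤ c1 * N / 2 := by
    calc J * (10 * (P * P) / (N : ℝ) ^ 2) ≤ (2 * ((N : ℝ) ^ 2 * s)) *
          (10 * (P * P) / (N : ℝ) ^ 2) := by
          gcongr
          linarith
      _ = 40 * (P * P) * s / 2 := by
        field_simp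
        ring
      _ ≤ c0 * N / 2 := by gcongr
      _ ≤ c1 * N / 2 := by gcongr
  have hJcp : c1 * N / 2 ≤ J * cp := by
    have : (J : ℝ) * cm ≤ J * (cp + 10 * (P * P) / (N : ℝ) ^ 2) := by gcongr
    rw [mul_add] at this
    linarith
  have hcppos : 0 ≤ cp := by
    by_contra hneg
    push Not at hneg
    have h6 : (J : ℝ) * cp ≤ 0 := mul_nonpos_of_nonneg_of_nonpos (Nat.cast_nonneg _) hneg.le
    have h7 : 0 < c1 * N / 2 := by positivity
    linarith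
  have hfin : c1 * N / 2 ≤ 2 * ρ * cp := le_trans hJcp (by gcongr)
  have hm1p : (0 : ℝ) < m1 := by
    rw [← hρm]
    positivity
  rw [div_le_iff₀ hm1p, ← hρm]
  calc c1 / 4 * N * m = (c1 * N / 2) * (m / 2) := by ring
    _ ≤ (2 * ρ * cp) * (m / 2) := by gcongr
    _ = cp * (ρ * m) := by ring

end Pool.Agent.Helper98.EX
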